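import Pool.Agent.R745.CDX.Defs

/-! # XMAIN: the theorem from the nonexistence of contexts, `Q = 5, 6` -/

namespace R745CDX

open Finset H825CD

theorem tX_main (h1 : X_false) (h2 : S_FF) : X_main := by
  classical
  intro ι _ _ Q hQ n
  induction n using Nat.strong_induction_on with
  | _ n ih =>
    intro S hS δ A B hA hB hd
    by_contra hlt
    rw [not_le] at hlt
    have hAB : 0 < A.card * B.card := by omega
    obtain ⟨a, ha⟩ := Finset.card_pos.1 (Nat.pos_of_mul_pos_right hAB)
    obtain ⟨b, hb⟩ := Finset.card_pos.1 (Nat.pos_of_mul_pos_left hAB)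
    have hδn : δ ≤ n := by
      rw [← hd a ha b hb, ← hS]
      unfold hammingDist
      refine Finset.card_le_card fun i hi => ?_
      by_contra hiS
      exact (Finset.mem_filter.1 hi).2 (by rw [hA a ha i hiS, hB b hb i hiS])
    rcases Nat.eq_zero_or_pos δ with h0 | hpos
    · subst h0
      have hAe : ∀ x ∈ A, x = b := fun x hx => hammingDist_eq_zero.1 (hd x hx b hb)
      have hBe : ∀ y ∈ B, y = a := fun y hy => (hammingDist_eq_zero.1 (hd a ha y hy)).symm
      have hA1 : A.card ≤ 1 := Finset.card_le_one.2 fun x hx y hy => by rw [hAe x hx, hAe y hy]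
      have hB1 : B.card ≤ 1 := Finset.card_le_one.2 fun x hx y hy => by rw [hBe x hx, hBe y hy]
      have h3 := (h2 Q n 0).2.2.1
      have h4 : A.card * B.card ≤ 1 * 1 := Nat.mul_le_mul hA1 hB1
      omega
    · obtain ⟨δ', rfl⟩ : ∃ δ', δ = δ' + 1 := ⟨δ - 1, by omega⟩
      obtain ⟨n', rfl⟩ : ∃ n', n = n' + 1 := ⟨n - 1, by omega⟩
      obtain ⟨P, hP, hmax⟩ := Finset.exists_max_image
        (Finset.univ.filter fun P : Finset (ι → Fin (Q + 1)) × Finset (ι → Fin (Q + 1)) =>
          Sup S P.1 ∧ Sup S P.2 ∧ ∀ a ∈ P.1, ∀ b ∈ P.2, hammingDist a b = δ' + 1)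
        (fun P => P.1.card * P.2.card)
        ⟨(A, B), Finset.mem_filter.2 ⟨Finset.mem_univ _, hA, hB, hd⟩⟩
      obtain ⟨-, hP1, hP2, hP3⟩ := Finset.mem_filter.1 hP
      have hle : A.card * B.card ≤ P.1.card * P.2.card :=
        hmax (A, B) (Finset.mem_filter.2 ⟨Finset.mem_univ _, hA, hB, hd⟩)
      have f1 := (h2 Q n' δ').1
      have f2 := (h2 Q n' δ').2.1 (by omega)
      refine h1 ι Q S (δ' + 1) (FF Q n' δ') P.1 P.2 hQ
        { supA := hP1
          supB := hP2
          dist := hP3
          max := ?_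
          ih1 := ?_
          ih2 := ?_
          big := ?_
          crit := ?_ }
      · intro A' B' hA' hB' hd'
        exact hmax (A', B') (Finset.mem_filter.2 ⟨Finset.mem_univ _, hA', hB', hd'⟩)
      · intro j hj A' B' hA' hB' hd'
        refine ih n' (by omega) (S.erase j) ?_ δ' A' B' hA' hB' fun a ha b hb => ?_
        · rw [Finset.card_erase_of_mem hj, hS, Nat.add_sub_cancel]
        · exact Nat.succ_injective (hd' a ha b hb)
      · intro j hj i hi hij A' B' hA' hB' hd'
        rcases A'.eq_empty_or_nonempty with hAe | ⟨a', ha'⟩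
        · simp [hAe]
        rcases B'.eq_empty_or_nonempty with hBe | ⟨b', hb'⟩
        · simp [hBe]
        have hd0 := hd' a' ha' b' hb'
        obtain ⟨δ'', rfl⟩ : ∃ δ'', δ' = δ'' + 1 := ⟨δ' - 1, by omega⟩
        obtain ⟨n'', rfl⟩ : ∃ n'', n' = n'' + 1 := ⟨n' - 1, by omega⟩
        have hc : ((S.erase j).erase i).card = n'' := by
          rw [Finset.card_erase_of_mem (Finset.mem_erase.2 ⟨hij, hi⟩),
            Finset.card_erase_of_mem hj, hS]
          omega
        have h5 := ih n'' (by omega) ((S.erase j).erase i) hc δ'' A' B' hA' hB'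
          fun a ha b hb => by
            have := hd' a ha b hb
            omega
        exact (Nat.mul_le_mul_left _ h5).trans (h2 Q n'' δ'').1
      · omega
      · rw [hS]
        refine lt_of_le_of_lt f2 ?_
        exact Nat.mul_lt_mul_of_pos_left (by omega) (by omega)

end R745CDX
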